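import Pool.Agent.CMG.Stmts

set_option autoImplicit false

noncomputable section

namespace Pool.Agent.CMG.H27

open Pool.Agent.LSG Pool.Agent.CMG

theorem hom : HomStmt := by
  intro D _ x hx
  let f : ℤ →+ Additive D := zmultiplesHom (Additive D) (Additive.ofMul x)
  have hf : Function.Injective f := by
    rw [injective_iff_map_eq_zero]
    intro n hn
    by_contra hne
    have h1 : x ^ n = 1 := by
      have h2 : f n = n • Additive.ofMul x := rfl
      rw [h2] at hn
      exact hn
    have h3 : x ^ n.natAbs = 1 := by
      rcases Int.natAbs_eq n with h | h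
      · rw [h, zpow_natCast] at h1
        exact h1
      · rw [h, zpow_neg, zpow_natCast, inv_eq_one] at h1
        exact h1
    exact hx n.natAbs (Int.natAbs_pos.2 hne) h3
  obtain ⟨h, hh⟩ := Module.Baer.extension_property_addMonoidHom
    (Module.Baer.of_divisible ℝ) f hf (Int.castAddHom ℝ)
  refine ⟨fun a => h (Additive.ofMul a), fun a b => ?_, ?_⟩
  · show h (Additive.ofMul (a * b)) = _
    rw [ofMul_mul, map_add]
  · have h1 := DFunLike.congr_fun hh 1
    simpa [f] using h1

end Pool.Agent.CMG.H27
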