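import Pool.Agent.CMG.Stmts

/-!
# Squad CMG, row BRO: Brouwer's theorem on the Cantor set

Let `U n` be all the clopen sets. Cells `A f n` (`f` a 0-1-sequence): `A f 0` is everything and `A f n`
is split into two nonempty clopen sets, each of which is contained in `U n` or disjoint from it.
-/

set_option autoImplicit false

open Set Topology TopologicalSpace

noncomputable section

namespace Pool.Agent.CMG.H27

open Pool.Agent.LSG Pool.Agent.CMG

variable {X : Type}

/-- `A` is contained in `U` or disjoint from it -/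
def Hgn (U A : Set X) : Prop := (∀ x ∈ A, x ∈ U) ∨ ∀ x ∈ A, x ∉ U

theorem Hgn.mono {U A B : Set X} (h : Hgn U A) (hB : B ⊆ A) : Hgn U B := by
  rcases h with h | h
  · exact Or.inl fun x hx => h x (hB hx)
  · exact Or.inr fun x hx => h x (hB hx)

/-- `B`, `A \ B` is a splitting of `A` which decides `U` -/
def Spl [TopologicalSpace X] (U A B : Set X) : Prop :=
  IsClopen B ∧ B ⊆ A ∧ B.Nonempty ∧ (A \ B).Nonempty ∧ Hgn U B ∧ Hgn U (A \ B)

theorem exists_spl [TopologicalSpace X] [CompactSpace X] [T2Space X] [TotallyDisconnectedSpace X]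
    (hiso : ∀ x : X, ¬ IsOpen ({x} : Set X)) (U A : Set X) (hU : IsClopen U) (hA : IsClopen A)
    (hne : A.Nonempty) : ∃ B, Spl U A B := by
  by_cases h : (A ∩ U).Nonempty ∧ (A \ U).Nonempty
  · refine ⟨A ∩ U, hA.inter hU, inter_subset_left, h.1, ?_, Or.inl fun x hx => hx.2,
      Or.inr fun x hx hxU => hx.2 ⟨hx.1, hxU⟩⟩
    obtain ⟨x, hx⟩ := h.2
    exact ⟨x, hx.1, fun h' => hx.2 h'.2⟩
  · have hA' : Hgn U A := by
      by_contra hcon
      apply h
      constructor
      · by_contra h1
        exact hcon (Or.inr fun x hx hxU => h1 ⟨x, hx, hxU⟩)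
      · by_contra h1
        refine hcon (Or.inl fun x hx => ?_)
        by_contra hxU
        exact h1 ⟨x, hx, hxU⟩
    obtain ⟨x, hx⟩ := hne
    have hy : ∃ y ∈ A, y ≠ x := by
      by_contra hcon
      refine hiso x ?_
      have h1 : ({x} : Set X) = A := by
        ext y
        constructor
        · intro hy
          rw [mem_singleton_iff] at hy
          rw [hy]
          exact hx
        · intro hy
          rw [mem_singleton_iff]
          by_contra hyx
          exact hcon ⟨y, hy, hyx⟩
      rw [h1]
      exact hA.isOpen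
    obtain ⟨y, hy, hyx⟩ := hy
    obtain ⟨V, hV, hxV, hVy⟩ := compact_exists_isClopen_in_isOpen
      (isOpen_compl_singleton (x := y)) (x := x) (fun h1 => hyx (mem_singleton_iff.1 h1).symm)
    refine ⟨A ∩ V, hA.inter hV, inter_subset_left, ⟨x, hx, hxV⟩, ⟨y, hy, fun h1 => ?_⟩,
      hA'.mono inter_subset_left, hA'.mono sdiff_subset⟩
    exact hVy h1.2 (mem_singleton y)

open Classical in
/-- the chosen half of `A` -/
def sp [TopologicalSpace X] (U A : Set X) : Set X := if h : ∃ B, Spl U A B then h.choose else ∅

theorem sp_spec [TopologicalSpace X] {U A : Set X} (h : ∃ B, Spl U A B) : Spl U A (sp U A) := by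
  unfold sp
  rw [dif_pos h]
  exact h.choose_spec

/-- the cells -/
def cell [TopologicalSpace X] (U : ℕ → Set X) (f : ℕ → Bool) : ℕ → Set X
  | 0 => univ
  | n + 1 => cond (f n) (sp (U n) (cell U f n)) (cell U f n \ sp (U n) (cell U f n))

open Classical in
/-- the cells of a point -/
def trc [TopologicalSpace X] (U : ℕ → Set X) (x : X) : ℕ → Set X
  | 0 => univ
  | n + 1 => if x ∈ sp (U n) (trc U x n) then sp (U n) (trc U x n)
      else trc U x n \ sp (U n) (trc U x n)

section

variable [TopologicalSpace X] {U : ℕ → Set X}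
  (hsp : ∀ n A, IsClopen A → A.Nonempty → Spl (U n) A (sp (U n) A))

include hsp

theorem cell_prop (f : ℕ → Bool) [Nonempty X] (n : ℕ) :
    IsClopen (cell U f n) ∧ (cell U f n).Nonempty := by
  induction n with
  | zero => exact ⟨isClopen_univ, univ_nonempty⟩
  | succ n ih =>
    obtain ⟨h1, h2, h3, h4, h5, h6⟩ := hsp n _ ih.1 ih.2
    cases hf : f n
    · simp only [cell, hf, cond_false]
      exact ⟨ih.1.diff h1, h4⟩
    · simp only [cell, hf, cond_true]
      exact ⟨h1, h3⟩

theorem cell_sub (f : ℕ → Bool) [Nonempty X] (n : ℕ) : cell U f (n + 1) ⊆ cell U f n := by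
  obtain ⟨h1, h2, h3, h4, h5, h6⟩ := hsp n _ (cell_prop hsp f n).1 (cell_prop hsp f n).2
  cases hf : f n
  · simp only [cell, hf, cond_false]
    exact sdiff_subset
  · simp only [cell, hf, cond_true]
    exact h2

theorem cell_hgn (f : ℕ → Bool) [Nonempty X] (n : ℕ) : Hgn (U n) (cell U f (n + 1)) := by
  obtain ⟨h1, h2, h3, h4, h5, h6⟩ := hsp n _ (cell_prop hsp f n).1 (cell_prop hsp f n).2
  cases hf : f n
  · simp only [cell, hf, cond_false]
    exact h6
  · simp only [cell, hf, cond_true]
    exact h5

omit hsp in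
theorem cell_congr (f g : ℕ → Bool) (n : ℕ) (h : ∀ i, i < n → f i = g i) :
    cell U f n = cell U g n := by
  induction n with
  | zero => rfl
  | succ n ih =>
    have h1 := ih fun i hi => h i (Nat.lt_succ_of_lt hi)
    simp only [cell, h1, h n (Nat.lt_succ_self n)]

omit hsp in
theorem cell_disj (f g : ℕ → Bool) (n : ℕ) (h : ∀ i, i < n → f i = g i) (hn : f n ≠ g n) (x : X)
    (hf : x ∈ cell U f (n + 1)) (hg : x ∈ cell U g (n + 1)) : False := by
  have h1 := cell_congr (U := U) f g n h
  cases hfn : f n
  · have hgn : g n = true := by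
      cases hgn : g n
      · exact absurd (hfn.trans hgn.symm) hn
      · rfl
    simp only [cell, hfn, cond_false] at hf
    simp only [cell, hgn, cond_true, ← h1] at hg
    exact hf.2 hg
  · have hgn : g n = false := by
      cases hgn : g n
      · rfl
      · exact absurd (hfn.trans hgn.symm) hn
    simp only [cell, hfn, cond_true] at hf
    simp only [cell, hgn, cond_false, ← h1] at hg
    exact hg.2 hf

omit hsp in
theorem mem_trc (x : X) (n : ℕ) : x ∈ trc U x n := by
  induction n with
  | zero => exact mem_univ x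
  | succ n ih =>
    by_cases h : x ∈ sp (U n) (trc U x n)
    · simp only [trc, if_pos h]
      exact h
    · simp only [trc, if_neg h]
      exact ⟨ih, h⟩

omit hsp in
open Classical in
theorem cell_trc (x : X) (n : ℕ) :
    cell U (fun n => decide (x ∈ sp (U n) (trc U x n))) n = trc U x n := by
  induction n with
  | zero => rfl
  | succ n ih =>
    by_cases h : x ∈ sp (U n) (trc U x n)
    · simp only [cell, trc, ih, if_pos h, decide_eq_true h, cond_true]
    · simp only [cell, trc, ih, if_neg h, decide_eq_false h, cond_false]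

end

theorem bro : BroStmt := by
  intro X _ _ _ _ _ hiso
  have hsc : SecondCountableTopology X := by
    let _ : MetricSpace X := TopologicalSpace.metrizableSpaceMetric X
    infer_instance
  have hcl : Countable (Clopens X) := Clopens.countable_iff_secondCountable.2 hsc
  obtain ⟨W, hW⟩ := exists_surjective_nat (Clopens X)
  let U : ℕ → Set X := fun n => (W n : Set X)
  have hU : ∀ n, IsClopen (U n) := fun n => (W n).isClopen
  have hsp : ∀ n A, IsClopen A → A.Nonempty → Spl (U n) A (sp (U n) A) :=
    fun n A hA hne => sp_spec (exists_spl hiso (U n) A (hU n) hA hne)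
  have hpt : ∀ f : ℕ → Bool, ∃ x, ∀ n, x ∈ cell U f n := by
    intro f
    have h1 := IsCompact.nonempty_iInter_of_sequence_nonempty_isCompact_isClosed (cell U f)
      (cell_sub hsp f) (fun n => (cell_prop hsp f n).2) isCompact_univ
      (fun n => (cell_prop hsp f n).1.isClosed)
    obtain ⟨x, hx⟩ := h1
    exact ⟨x, fun n => mem_iInter.1 hx n⟩
  choose T hT using hpt
  have hbas : ∀ (x : X) (O : Set X), IsOpen O → x ∈ O → ∃ n, x ∈ U n ∧ U n ⊆ O := by
    intro x O hO hx
    obtain ⟨V, hV, hxV, hVO⟩ := compact_exists_isClopen_in_isOpen hO hx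
    obtain ⟨n, hn⟩ := hW ⟨V, hV⟩
    refine ⟨n, ?_, ?_⟩
    · simp only [U, hn]
      exact hxV
    · simp only [U, hn]
      exact hVO
  have huniq : ∀ (f : ℕ → Bool) (x : X), (∀ n, x ∈ cell U f n) → T f = x := by
    intro f x hx
    by_contra hne
    obtain ⟨n, hn1, hn2⟩ := hbas (T f) {x}ᶜ isOpen_compl_singleton
      (fun h1 => hne (mem_singleton_iff.1 h1))
    rcases cell_hgn hsp f n with h | h
    · exact hn2 (h x (hx (n + 1))) (mem_singleton x)
    · exact h (T f) (hT f (n + 1)) hn1
  have hinj : Function.Injective T := by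
    intro f g hfg
    by_contra hne
    have hex : ∃ n, f n ≠ g n := by
      by_contra hcon
      apply hne
      funext n
      by_contra h1
      exact hcon ⟨n, h1⟩
    classical
    have h1 := Nat.find_spec hex
    have h2 : ∀ i, i < Nat.find hex → f i = g i := by
      intro i hi
      by_contra h3
      exact Nat.find_min hex hi h3
    refine cell_disj f g (Nat.find hex) h2 h1 (T f) (hT f _) ?_
    rw [hfg]
    exact hT g _
  have hsurj : Function.Surjective T := by
    intro x
    classical
    refine ⟨fun n => decide (x ∈ sp (U n) (trc U x n)), huniq _ x fun n => ?_⟩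
    have h1 := cell_trc (U := U) x n
    have h2 := mem_trc (U := U) x n
    rw [← h1] at h2
    exact h2
  have hcont : Continuous T := by
    rw [continuous_iff_continuousAt]
    intro f
    rw [ContinuousAt, tendsto_nhds]
    intro O hO hf
    obtain ⟨n, hn1, hn2⟩ := hbas (T f) O hO hf
    have h1 : ∀ x ∈ cell U f (n + 1), x ∈ U n := by
      rcases cell_hgn hsp f n with h | h
      · exact h
      · exact absurd hn1 (h (T f) (hT f (n + 1)))
    have h2 : {g : ℕ → Bool | ∀ i ∈ Finset.range (n + 1), g i = f i} ∈ 𝓝 f := by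
      have h3 : {g : ℕ → Bool | ∀ i ∈ Finset.range (n + 1), g i = f i} =
          ⋂ i ∈ Finset.range (n + 1), {g : ℕ → Bool | g i = f i} := by
        ext g
        simp
      rw [h3, Filter.biInter_finset_mem]
      intro i _
      exact (continuous_apply i).continuousAt.preimage_mem_nhds
        ((isOpen_discrete {f i}).mem_nhds (mem_singleton (f i)))
    filter_upwards [h2] with g hg
    have h3 : cell U g (n + 1) = cell U f (n + 1) :=
      cell_congr g f (n + 1) fun i hi => hg i (Finset.mem_range.2 hi)
    have h4 := hT g (n + 1)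
    rw [h3] at h4
    exact hn2 (h1 _ h4)
  exact ⟨(Continuous.homeoOfEquivCompactToT2 (f := Equiv.ofBijective T ⟨hinj, hsurj⟩) hcont).symm⟩

end Pool.Agent.CMG.H27
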